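import Mathlib
import Pool.Agent.Lib.MP_ac41cd_co.Main

/-!
# MP_ac41cd_co: subgraphs of girth 8 and minimum degree 3

Every graph of large minimum degree contains a subgraph of minimum degree at least `3` and girth
at least `8`; more precisely, for all `r` and `R`, a bipartite subgraph `H` without 4-cycles,
in which every vertex of one class `A` has exactly one neighbour in each of `r` parts `B i`,
every vertex of the other class has degree at least `R`, and every cycle through the part `B i₀`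
has length at least `8`. For `r = 3` the girth of `H` is at least `8`.
-/

set_option autoImplicit false

namespace Pool.Agent.Results.MP_ac41cd_co.GirthEight

theorem result : ∀ r R : ℕ, 1 ≤ r → ∃ γ : ℕ, ∀ (V : Type) [Fintype V] [Nonempty V]
    (G : SimpleGraph V), (∀ v : V, γ ≤ (G.neighborSet v).ncard) →
    ∃ (H : SimpleGraph V) (A : Set V) (B : Fin r → Set V) (i₀ : Fin r),
      H ≤ G ∧ A.Nonempty ∧ (∀ i, Disjoint A (B i)) ∧ (∀ i j, i ≠ j → Disjoint (B i) (B j)) ∧
      (∀ v w : V, H.Adj v w → (v ∈ A ∧ ∃ i, w ∈ B i) ∨ ((∃ i, v ∈ B i) ∧ w ∈ A)) ∧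
      (∀ a ∈ A, ∀ i, ∃! b, b ∈ B i ∧ H.Adj a b) ∧
      (∀ a ∈ A, (H.neighborSet a).ncard = r) ∧
      (∀ i, ∀ b ∈ B i, R ≤ (H.neighborSet b).ncard) ∧
      (6 : ℕ∞) ≤ H.egirth ∧
      (∀ (v : V) (p : H.Walk v v), p.IsCycle → ∀ w ∈ p.support, w ∈ B i₀ → 8 ≤ p.length) ∧
      (r = 3 → (8 : ℕ∞) ≤ H.egirth) := by
  intro r R hr
  exact Pool.Agent.MP_ac41cd_co.main_general r R hr

end Pool.Agent.Results.MP_ac41cd_co.GirthEight
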